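import Pool.Agent.Q211.UM.D3

/-! Project UM (helper62): job UM-D2. -/

set_option autoImplicit false

open Real Set MeasureTheory Topology Filter
open scoped ENNReal Polynomial

namespace Pool.Agent.Q211.UM

open Pool.Agent.Q62.UM

theorem ev_conj (A : ℂ[X][X]) (u : ℝ) (t : ℂ) :
    ev (A.map (Polynomial.mapRingHom (starRingEnd ℂ))) u ((starRingEnd ℂ) t) =
      (starRingEnd ℂ) (ev A u t) := by
  unfold ev
  rw [Polynomial.map_map, Polynomial.eval_map, Polynomial.eval_map, Polynomial.hom_eval₂]
  congr 1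
  refine RingHom.ext fun p => ?_
  rw [RingHom.comp_apply, RingHom.comp_apply, Polynomial.coe_mapRingHom, Polynomial.coe_evalRingHom,
    Polynomial.eval_map]
  have h1 : ((Real.exp u : ℝ) : ℂ) = (starRingEnd ℂ) ((Real.exp u : ℝ) : ℂ) :=
    (Complex.conj_ofReal _).symm
  conv_lhs => rw [h1]
  rw [Polynomial.eval₂_hom]

theorem alg_lin (D : ℕ) (J : Set ℝ) (B : ℂ[X]) (h : B.natDegree ≤ D) :
    Alg (max D 1) J (fun u => B.eval (Real.exp u : ℂ)) := by
  refine ⟨Polynomial.X - Polynomial.C B, Polynomial.X_sub_C_ne_zero B, ?_, ?_, ?_⟩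
  · rw [Polynomial.natDegree_X_sub_C]
    exact le_max_right _ _
  · intro i
    rw [Polynomial.coeff_sub]
    refine (Polynomial.natDegree_sub_le _ _).trans (max_le ?_ ?_)
    · rw [Polynomial.coeff_X]
      split_ifs
      · simp
      · simp
    · rw [Polynomial.coeff_C]
      split_ifs
      · exact h.trans (le_max_left _ _)
      · simp
  · intro u _
    simp

theorem t_D2 : S_D2 := by
  refine ⟨?_, ?_, ?_, ?_, ?_, ?_, ?_, ?_⟩
  · rintro D J f ⟨A, hA0, hAd, hAc, hAz⟩
    refine ⟨A.map (Polynomial.mapRingHom (starRingEnd ℂ)), ?_, ?_, ?_, ?_⟩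
    · rw [Ne, Polynomial.map_eq_zero_iff]
      · exact hA0
      · exact Polynomial.map_injective _ (starRingEnd ℂ).injective
    · exact Polynomial.natDegree_map_le.trans hAd
    · intro i
      rw [Polynomial.coeff_map]
      exact Polynomial.natDegree_map_le.trans (hAc i)
    · intro u hu
      have h1 := ev_conj A u (f u)
      have h2 : ev A u (f u) = 0 := hAz u hu
      rw [h2, map_zero] at h1
      exact h1
  · rintro D J f ⟨A, hA0, hAd, hAc, hAz⟩
    refine ⟨Polynomial.expand _ 2 A, ?_, ?_, ?_, ?_⟩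
    · rw [Ne, Polynomial.expand_eq_zero (by norm_num)]
      exact hA0
    · rw [Polynomial.natDegree_expand]
      omega
    · intro i
      rw [Polynomial.coeff_expand (by norm_num)]
      split_ifs
      · exact (hAc _).trans (by omega)
      · simp
    · intro u hu
      rw [Polynomial.map_expand, Polynomial.expand_eval]
      exact hAz u hu
  · rintro D J f ⟨A, hA0, hAd, hAc, hAz⟩ hf
    refine ⟨A.reverse, ?_, ?_, ?_, ?_⟩
    · rw [Ne, Polynomial.reverse_eq_zero]
      exact hA0
    · exact (Polynomial.reverse_natDegree_le A).trans hAd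
    · intro i
      rw [Polynomial.coeff_reverse]
      exact hAc _
    · intro u hu
      rw [Polynomial.eval_map]
      letI : Invertible (f u) := invertibleOfNonzero (hf u hu)
      have h1 := (Polynomial.eval₂_reverse_eq_zero_iff
        (Polynomial.evalRingHom (Real.exp u : ℂ)) (f u) A).2 (by
          rw [← Polynomial.eval_map]
          exact hAz u hu)
      rwa [invOf_eq_inv] at h1
  · intro J c
    have h := alg_lin 0 J (Polynomial.C c) (by simp)
    simpa using h
  · intro J
    have h := alg_lin 1 J Polynomial.X (by simp)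
    simpa using h
  · rintro D D' J J' f hD hJ ⟨A, hA0, hAd, hAc, hAz⟩
    exact ⟨A, hA0, hAd.trans hD, fun i => (hAc i).trans hD, fun u hu => hAz u (hJ hu)⟩
  · rintro D J f g hfg ⟨A, hA0, hAd, hAc, hAz⟩
    refine ⟨A, hA0, hAd, hAc, fun u hu => ?_⟩
    rw [← hfg u hu]
    exact hAz u hu
  · intro D J B hB
    exact alg_lin D J B hB

end Pool.Agent.Q211.UM
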