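import Pool.Agent.Q62.UM.Stm2

/-! Project UM (helper62): job UM-D3. -/

set_option autoImplicit false

open Real Set MeasureTheory Topology Filter
open scoped ENNReal Polynomial

namespace Pool.Agent.Q211.UM

open Pool.Agent.Q62.UM

theorem ev_sum (A : ℂ[X][X]) (u : ℝ) (t : ℂ) :
    ev A u t = ∑ i ∈ Finset.range (A.natDegree + 1), (A.coeff i).eval (Real.exp u : ℂ) * t ^ i := by
  unfold ev
  rw [Polynomial.eval_map, Polynomial.eval₂_eq_sum_range]
  rfl

theorem ev_mul (A B : ℂ[X][X]) (u : ℝ) (t : ℂ) : ev (A * B) u t = ev A u t * ev B u t := by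
  unfold ev
  rw [Polynomial.map_mul, Polynomial.eval_mul]

theorem ev_X_pow (k : ℕ) (u : ℝ) (t : ℂ) : ev (Polynomial.X ^ k) u t = t ^ k := by
  unfold ev
  rw [Polynomial.map_pow, Polynomial.map_X, Polynomial.eval_pow, Polynomial.eval_X]

theorem ev_zero_right (A : ℂ[X][X]) (u : ℝ) : ev A u 0 = (A.coeff 0).eval (Real.exp u : ℂ) := by
  unfold ev
  rw [← Polynomial.coeff_zero_eq_eval_zero, Polynomial.coeff_map]
  rfl

theorem ev_cont (A : ℂ[X][X]) (f : ℝ → ℂ) (u : ℝ) (hf : ContinuousAt f u) :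
    ContinuousAt (fun v => ev A v (f v)) u := by
  simp only [ev_sum]
  refine tendsto_finsetSum _ fun i _ => ?_
  have h1 : Continuous fun v : ℝ => (A.coeff i).eval (Real.exp v : ℂ) :=
    (A.coeff i).continuous.comp (Complex.continuous_ofReal.comp Real.continuous_exp)
  exact h1.continuousAt.mul (hf.pow i)

/-- the real numbers `u` for which `exp u` is a root -/
noncomputable def lr (q : ℂ[X]) : Finset ℝ := q.roots.toFinset.image (fun z => Real.log z.re)

theorem lr_card (q : ℂ[X]) : (lr q).card ≤ q.natDegree :=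
  Finset.card_image_le.trans ((Multiset.toFinset_card_le _).trans (Polynomial.card_roots' q))

theorem mem_lr (q : ℂ[X]) (hq : q ≠ 0) (u : ℝ) (h : q.eval (Real.exp u : ℂ) = 0) : u ∈ lr q := by
  unfold lr
  rw [Finset.mem_image]
  refine ⟨(Real.exp u : ℂ), ?_, ?_⟩
  · rw [Multiset.mem_toFinset, Polynomial.mem_roots hq]
    exact h
  · rw [Complex.ofReal_re, Real.log_exp]

theorem t_D3 : S_D3 := by
  intro D J f hJ hf hA
  obtain ⟨A, hA0, hAd, hAc, hAz⟩ := hA
  have hdiv : Polynomial.X ^ A.natTrailingDegree ∣ A :=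
    Polynomial.X_pow_dvd_iff.2 fun d hd => Polynomial.coeff_eq_zero_of_lt_natTrailingDegree hd
  obtain ⟨A₁, hA₁⟩ := hdiv
  have hq : A₁.coeff 0 = A.coeff A.natTrailingDegree := by
    conv_rhs => rw [hA₁]
    have := Polynomial.coeff_X_pow_mul A₁ A.natTrailingDegree 0
    rw [zero_add] at this
    rw [← this, ← hA₁]
  have hq0 : A₁.coeff 0 ≠ 0 := by
    rw [hq]
    exact Polynomial.trailingCoeff_nonzero_iff_nonzero.2 hA0
  refine ⟨lr (A₁.coeff 0), (lr_card _).trans (by rw [hq]; exact hAc _), ?_⟩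
  intro I hI hIJ hd
  have hkey : ∀ u ∈ I, f u ≠ 0 → ev A₁ u (f u) = 0 := by
    intro u hu hfu
    have h1 : ev A u (f u) = 0 := hAz u (hIJ hu)
    rw [hA₁, ev_mul, ev_X_pow] at h1
    exact (mul_eq_zero.1 h1).resolve_left (pow_ne_zero _ hfu)
  have hcI : ContinuousOn f I := hf.mono hIJ
  have hU : IsOpen (I ∩ f ⁻¹' {0}ᶜ) := hcI.isOpen_inter_preimage hI.1 isOpen_compl_singleton
  have hV : IsOpen (I ∩ f ⁻¹' {0}) := by
    rw [isOpen_iff_mem_nhds]
    rintro u ⟨hu, hfu⟩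
    have hfu0 : f u = 0 := hfu
    have h1 : ContinuousAt (fun v => ev A₁ v (f v)) u :=
      ev_cont A₁ f u (hcI.continuousAt (hI.1.mem_nhds hu))
    have h2 : ev A₁ u (f u) ≠ 0 := by
      rw [hfu0, ev_zero_right]
      intro h3
      exact Set.disjoint_left.1 hd hu (mem_lr _ hq0 u h3)
    filter_upwards [hI.1.mem_nhds hu, h1.eventually_ne h2] with v hv hv2
    refine ⟨hv, ?_⟩
    by_contra h4
    exact hv2 (hkey v hv h4)
  have hdisj : Disjoint (I ∩ f ⁻¹' {0}) (I ∩ f ⁻¹' {0}ᶜ) := by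
    rw [Set.disjoint_left]
    rintro x ⟨_, hx⟩ ⟨_, hx'⟩
    exact hx' hx
  have hcov : I ⊆ (I ∩ f ⁻¹' {0}) ∪ (I ∩ f ⁻¹' {0}ᶜ) := by
    intro x hx
    by_cases h : f x = 0
    · exact Or.inl ⟨hx, h⟩
    · exact Or.inr ⟨hx, h⟩
  rcases hI.2.isPreconnected.subset_or_subset hV hU hdisj hcov with h | h
  · exact Or.inl fun u hu => (h hu).2
  · exact Or.inr fun u hu => (h hu).2

end Pool.Agent.Q211.UM
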