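import Pool.Agent.Q62.UM.Stm2

/-! Project UM (helper62): job UM-D6. -/

set_option autoImplicit false

open Real Set MeasureTheory Topology Filter
open scoped ENNReal Polynomial

namespace Pool.Agent.Q211.UM

open Pool.Agent.Q62.UM

/-- the components of the complement of `Z₀` -/
def comp (Z₀ : Finset ℝ) : Option ℝ → Set ℝ
  | none => {u | ∀ z ∈ Z₀, u < z}
  | some a => {u | a < u ∧ ∀ z ∈ Z₀, a < z → u < z}

theorem comp_oi (Z₀ : Finset ℝ) (o : Option ℝ) : OI (comp Z₀ o) := by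
  cases o with
  | none =>
    constructor
    · have : comp Z₀ none = ⋂ z ∈ Z₀, Iio z := by
        ext u
        simp [comp]
      rw [this]
      exact isOpen_biInter_finset fun z _ => isOpen_Iio
    · refine ⟨fun x hx y hy w hw z hz => lt_of_le_of_lt hw.2 (hy z hz)⟩
  | some a =>
    constructor
    · have : comp Z₀ (some a) = Ioi a ∩ ⋂ z ∈ Z₀.filter (fun z => a < z), Iio z := by
        ext u
        simp [comp]
      rw [this]
      exact isOpen_Ioi.inter (isOpen_biInter_finset fun z _ => isOpen_Iio)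
    · refine ⟨fun x hx y hy w hw => ⟨lt_of_lt_of_le hx.1 hw.1,
        fun z hz haz => lt_of_le_of_lt hw.2 (hy.2 z hz haz)⟩⟩

theorem comp_disj (Z₀ : Finset ℝ) (o : Option ℝ) : Disjoint (comp Z₀ o) (Z₀ : Set ℝ) := by
  rw [Set.disjoint_left]
  intro x hx hxZ
  cases o with
  | none => exact lt_irrefl x (hx x hxZ)
  | some a => exact lt_irrefl x (hx.2 x hxZ hx.1)

theorem comp_cover (Z₀ : Finset ℝ) (J : Set ℝ) (hJ : OI J) (hne : J.Nonempty)
    (hd : Disjoint J (Z₀ : Set ℝ)) : ∃ o ∈ Finset.insertNone Z₀, J ⊆ comp Z₀ o := by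
  classical
  obtain ⟨x, hx⟩ := hne
  rw [Set.disjoint_left] at hd
  have hnot : ∀ y ∈ J, ∀ z ∈ Z₀, x ≤ z → y < z := by
    intro y hy z hz hxz
    by_contra h
    exact hd (hJ.2.out hx hy ⟨hxz, not_lt.1 h⟩) hz
  have hnot' : ∀ y ∈ J, ∀ z ∈ Z₀, z ≤ x → z < y := by
    intro y hy z hz hxz
    by_contra h
    exact hd (hJ.2.out hy hx ⟨not_lt.1 h, hxz⟩) hz
  by_cases hc : (Z₀.filter (fun z => z < x)).Nonempty
  · refine ⟨some ((Z₀.filter (fun z => z < x)).max' hc), ?_, ?_⟩
    · have h1 := Finset.mem_filter.1 ((Z₀.filter (fun z => z < x)).max'_mem hc)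
      exact Finset.some_mem_insertNone.2 h1.1
    · intro y hy
      have h1 := Finset.mem_filter.1 ((Z₀.filter (fun z => z < x)).max'_mem hc)
      refine ⟨hnot' y hy _ h1.1 h1.2.le, fun z hz haz => hnot y hy z hz ?_⟩
      by_contra h
      have h2 := (Z₀.filter (fun z => z < x)).le_max' z (Finset.mem_filter.2 ⟨hz, not_le.1 h⟩)
      exact absurd haz (not_lt.2 h2)
  · refine ⟨none, Finset.none_mem_insertNone, fun y hy z hz => hnot y hy z hz ?_⟩
    by_contra h
    exact hc ⟨z, Finset.mem_filter.2 ⟨hz, not_le.1 h⟩⟩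

theorem t_D6 : S_D6 := by
  classical
  intro P Z₀ m h
  have h1 : ∀ o : Option ℝ, ∃ Z : Finset ℝ, Z.card ≤ m ∧
      ∀ J, OI J → J.Nonempty → J ⊆ comp Z₀ o → Disjoint J (Z : Set ℝ) → P J := by
    intro o
    by_cases hne : (comp Z₀ o).Nonempty
    · exact h _ (comp_oi Z₀ o) hne (comp_disj Z₀ o)
    · refine ⟨∅, Nat.zero_le _, fun J _ hJ hs _ => absurd (hJ.mono hs) hne⟩
  choose Zf hZf1 hZf2 using h1
  refine ⟨Z₀ ∪ (Finset.insertNone Z₀).biUnion Zf, ?_, ?_⟩
  · refine (Finset.card_union_le _ _).trans (Nat.add_le_add_left ?_ _)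
    refine (Finset.card_biUnion_le_card_mul _ _ m fun o _ => hZf1 o).trans ?_
    rw [Finset.card_insertNone]
  · intro J hJ hne hd
    rw [Finset.coe_union, Set.disjoint_union_right] at hd
    obtain ⟨o, ho, hs⟩ := comp_cover Z₀ J hJ hne hd.1
    refine hZf2 o J hJ hne hs (hd.2.mono_right ?_)
    rw [Finset.coe_biUnion]
    exact Set.subset_biUnion_of_mem (u := fun o => (Zf o : Set ℝ)) ho

end Pool.Agent.Q211.UM
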