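import Pool.Agent.Q97.UM.Stm2
import Pool.Agent.Q80.SP.Apx

set_option autoImplicit false

/-!
Project UM, job FIL: a frequency filter applied to zeta, uniformly in the frequency.
-/

namespace Pool.Agent.Q211.UM

open Complex Filter Topology MeasureTheory Set
open Pool.Agent.W182.KO
open Q80.SP (kr sm DP c2 c2_eq DP_eq DF_one DF_zeta sm_I0 hz)
open Q97.MM (pt)
open scoped ContDiff

noncomputable section

section

variable {ξ1 : ℝ} {ψ : ℝ → ℂ} {F1 F2 : ℂ → ℂ} {c R C1 C2 : ℝ} {M : ℕ}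

/-- Shift of the line of integration with an explicit constant. -/
theorem shiftC (h : TF ξ1 ψ) (hξ : 0 ≤ ξ1) (D1 : DF F1 c R M C1) (D2 : DF F2 c R M C2)
    (hc : 1 / 2 ≤ c) (n : ℕ) {CN : ℝ} (hCN : 0 ≤ CN)
    (hP : ∀ z : ℂ, 0 ≤ z.re → ‖P ψ z‖ * (1 + ‖z‖) ^ (n + 2 + 2 * M) ≤ CN * Real.exp (ξ1 * z.re)) :
    ∀ L U t : ℝ, 1 ≤ L → 1 ≤ U → 2 * R ≤ U → U ≤ t →
      ‖I0 ψ F1 F2 L t - K0 ψ F1 F2 c L t‖ ≤
        (CN * (C1 * C2) * (2 * J2 + 2 * (c - 1 / 2)) * 2 ^ n) *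
          (Real.exp (ξ1 * (L * (c - 1 / 2))) * (1 + t) ^ (2 * M)) / U ^ n := by
  have hC1 := D1.hC
  have hC2 := D2.hC
  have hJ := J2_nonneg
  have hc0 : 0 ≤ c - 1 / 2 := by linarith
  intro L U t hL hU hRU hUt
  have ht : 0 ≤ t := by linarith
  have hLc : 0 ≤ L * (c - 1 / 2) := mul_nonneg (by linarith) hc0
  set E : ℝ := Real.exp (ξ1 * (L * (c - 1 / 2))) with hE
  have hE1 : 1 ≤ E := Real.one_le_exp (mul_nonneg hξ hLc)
  set Q : ℝ := (1 + t) ^ (2 * M) with hQ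
  have hQ1 : 1 ≤ Q := one_le_pow₀ (by linarith)
  set B : ℝ := CN * (C1 * C2) * (E * Q) with hB
  have hB0 : 0 ≤ B := by positivity
  set Y : ℝ := U / 2 with hY
  have hY0 : 0 ≤ Y := by positivity
  -- the two tails
  have t1 := tail_le (I0_cont h D1 D2 L t) (B := B) (n := n) hB0 (fun y => by
    refine (I0_decay D1 D2 hCN hP hL ht y).trans ?_
    gcongr
    rw [hB]
    calc CN * (C1 * C2 * (1 + t) ^ (2 * M)) = CN * (C1 * C2) * (1 * Q) := by rw [hQ]; ring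
      _ ≤ _ := by gcongr) hY0
  have t2 := tail_le (K0_cont h D1 D2 L t) (B := B) (n := n) hB0 (fun y => by
    refine (K0_decay D1 D2 hc hCN hP hL t y).trans ?_
    gcongr
    rw [hB]
    calc CN * (C1 * C2 * E) = CN * (C1 * C2) * (E * 1) := by ring
      _ ≤ _ := by gcongr) hY0
  -- the rectangle
  set f : ℂ → ℂ := fun s => P ψ (L * (s - 1 / 2)) * (F1 (s + t * I) * F2 (s - t * I)) with hf
  have him1 : ∀ s : ℂ, |s.im| ≤ Y → R ≤ |(s + t * I).im| ∧ R ≤ |(s - t * I).im| := by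
    intro s hs
    rw [abs_le] at hs
    have e1 : (s + t * I).im = s.im + t := by simp
    have e2 : (s - t * I).im = s.im - t := by simp
    rw [e1, e2]
    constructor
    · refine le_trans ?_ (le_abs_self _); linarith
    · refine le_trans ?_ (neg_le_abs _); linarith
  have hdiff : ∀ s : ℂ, 1 / 2 ≤ s.re → s.re ≤ c → |s.im| ≤ Y → DifferentiableAt ℂ f s := by
    intro s h1 h2 h3
    obtain ⟨i1, i2⟩ := him1 s h3
    have d1 : DifferentiableAt ℂ (fun s : ℂ => P ψ (L * (s - 1 / 2))) s :=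
      ((P_diff h) _).comp s (by fun_prop)
    have d2 : DifferentiableAt ℂ (fun s : ℂ => F1 (s + t * I)) s :=
      (D1.diff (s + t * I) (by simpa using h1) (by simpa using h2) i1).comp s (by fun_prop)
    have d3 : DifferentiableAt ℂ (fun s : ℂ => F2 (s - t * I)) s :=
      (D2.diff (s - t * I) (by simpa using h1) (by simpa using h2) i2).comp s (by fun_prop)
    exact d1.mul (d2.mul d3)
  have hrect := Complex.integral_boundary_rect_eq_zero_of_differentiableOn f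
    ((1 / 2 : ℝ) + (-Y : ℝ) * I) ((c : ℝ) + (Y : ℝ) * I) (by
      intro s hs
      rw [mem_reProdIm] at hs
      simp only [add_re, ofReal_re, mul_re, I_re, mul_zero, ofReal_im, I_im, mul_one, sub_self,
        add_zero, add_im, mul_im, zero_add] at hs
      rw [uIcc_of_le (by linarith), uIcc_of_le (by linarith)] at hs
      exact (hdiff s hs.1.1 hs.1.2 (abs_le.2 ⟨hs.2.1, hs.2.2⟩)).differentiableWithinAt)
  simp only [add_re, ofReal_re, mul_re, I_re, mul_zero, ofReal_im, I_im, mul_one, sub_self,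
    add_zero, add_im, mul_im, zero_add] at hrect
  have hor : ∀ x ∈ uIoc (1 / 2 : ℝ) c, ∀ y : ℝ, |y| = Y → ‖f (x + y * I)‖ ≤ B / (1 + Y) ^ n := by
    intro x hx y hy
    rw [uIoc_of_le hc] at hx
    have hx0 : 1 / 2 ≤ x := hx.1.le
    have e0 : ((L:ℂ) * ((x:ℂ) + y * I - 1 / 2)).re = L * (x - 1 / 2) := by
      have : ((L:ℂ) * ((x:ℂ) + y * I - 1 / 2)) = ((L * (x - 1 / 2) : ℝ) : ℂ) + (L * y : ℝ) * I := by
        push_cast; ring
      rw [this]; simp
    have e1 : ((L:ℂ) * ((x:ℂ) + y * I - 1 / 2)).im = L * y := by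
      have : ((L:ℂ) * ((x:ℂ) + y * I - 1 / 2)) = ((L * (x - 1 / 2) : ℝ) : ℂ) + (L * y : ℝ) * I := by
        push_cast; ring
      rw [this]; simp
    have hre : 0 ≤ L * (x - 1 / 2) := mul_nonneg (by linarith) (by linarith)
    have h1 := P_bd_line (ψ := ψ) hP (z := (L:ℂ) * ((x:ℂ) + y * I - 1 / 2)) (y := y)
      (by rw [e0]; exact hre) (by
        rw [e1, abs_mul, abs_of_pos (by linarith : 0 < L)]
        exact le_mul_of_one_le_left (abs_nonneg _) hL)
    rw [e0, hy] at h1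
    have h1' : Real.exp (ξ1 * (L * (x - 1 / 2))) ≤ E := by
      rw [hE]
      refine Real.exp_le_exp.2 (mul_le_mul_of_nonneg_left (mul_le_mul_of_nonneg_left ?_ (by linarith)) hξ)
      linarith [hx.2]
    have hs3 : |((x:ℂ) + y * I).im| ≤ Y := by
      have : ((x:ℂ) + y * I).im = y := by simp
      rw [this, hy]
    obtain ⟨i1, i2⟩ := him1 _ hs3
    have g1 := D1.bd ((x:ℂ) + y * I + t * I) (by simpa using hx0) (by simpa using hx.2) i1
    have g2 := D2.bd ((x:ℂ) + y * I - t * I) (by simpa using hx0) (by simpa using hx.2) i2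
    have e2 : ((x:ℂ) + y * I + t * I).im = y + t := by simp
    have e3 : ((x:ℂ) + y * I - t * I).im = y - t := by simp
    rw [e2] at g1
    rw [e3] at g2
    have h3 := one_add_abs_add y t ht
    have h4 := one_add_abs_sub y t ht
    rw [hy] at h3 h4
    have hYp : 0 < 1 + Y := by linarith
    rw [hf]
    simp only
    rw [norm_mul, norm_mul]
    calc _ ≤ (CN * E / (1 + Y) ^ (n + 2 + 2 * M)) *
          ((C1 * ((1 + Y) * (1 + t)) ^ M) * (C2 * ((1 + Y) * (1 + t)) ^ M)) := by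
          have a1 : ‖P ψ (↑L * (↑x + ↑y * I - 1 / 2))‖ ≤ CN * E / (1 + Y) ^ (n + 2 + 2 * M) := by
            refine h1.trans ?_
            gcongr
          have a2 : ‖F1 (↑x + ↑y * I + ↑t * I)‖ ≤ C1 * ((1 + Y) * (1 + t)) ^ M := by
            refine g1.trans ?_
            gcongr
          have a3 : ‖F2 (↑x + ↑y * I - ↑t * I)‖ ≤ C2 * ((1 + Y) * (1 + t)) ^ M := by
            refine g2.trans ?_
            gcongr
          gcongr
      _ = B / (1 + Y) ^ (n + 2) := by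
          rw [hB, hQ, two_mul M, pow_add (1 + Y) (n + 2) (M + M), pow_add (1 + Y) M M,
            pow_add (1 + t) M M, mul_pow]
          field_simp
      _ ≤ B / (1 + Y) ^ n := by
          refine div_le_div_of_nonneg_left hB0 (by positivity) ?_
          exact pow_le_pow_right₀ (by linarith) (by omega)
  have hh1 : ‖∫ x in (1 / 2 : ℝ)..c, f (x + (-Y : ℝ) * I)‖ ≤ B / (1 + Y) ^ n * |c - 1 / 2| :=
    intervalIntegral.norm_integral_le_of_norm_le_const fun x hx =>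
      hor x hx (-Y) (by rw [abs_neg, abs_of_nonneg hY0])
  have hh2 : ‖∫ x in (1 / 2 : ℝ)..c, f (x + (Y : ℝ) * I)‖ ≤ B / (1 + Y) ^ n * |c - 1 / 2| :=
    intervalIntegral.norm_integral_le_of_norm_le_const fun x hx =>
      hor x hx Y (abs_of_nonneg hY0)
  rw [abs_of_nonneg hc0] at hh1 hh2
  have ei : (∫ y in (-Y)..Y, P ψ (L * y * I) *
      (F1 (1 / 2 + (y + t : ℝ) * I) * F2 (1 / 2 + (y - t : ℝ) * I))) =
      ∫ y in (-Y)..Y, f ((1 / 2 : ℝ) + y * I) := by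
    congr 1; funext y
    have q1 : (L:ℂ) * y * I = L * (((1 / 2 : ℝ) : ℂ) + y * I - 1 / 2) := by push_cast; ring
    have q2 : (1 / 2 : ℂ) + ((y + t : ℝ) : ℂ) * I = ((1 / 2 : ℝ) : ℂ) + y * I + t * I := by
      push_cast; ring
    have q3 : (1 / 2 : ℂ) + ((y - t : ℝ) : ℂ) * I = ((1 / 2 : ℝ) : ℂ) + y * I - t * I := by
      push_cast; ring
    rw [q1, q2, q3]
  have ek : (∫ y in (-Y)..Y, P ψ ((L * (c - 1 / 2) : ℝ) + L * y * I) *
      (F1 (c + (y + t : ℝ) * I) * F2 (c + (y - t : ℝ) * I))) =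
      ∫ y in (-Y)..Y, f ((c : ℝ) + y * I) := by
    congr 1; funext y
    have q1 : ((L * (c - 1 / 2) : ℝ) : ℂ) + L * y * I = L * ((c : ℂ) + y * I - 1 / 2) := by
      push_cast; ring
    have q2 : (c : ℂ) + ((y + t : ℝ) : ℂ) * I = (c : ℂ) + y * I + t * I := by
      push_cast; ring
    have q3 : (c : ℂ) + ((y - t : ℝ) : ℂ) * I = (c : ℂ) + y * I - t * I := by
      push_cast; ring
    rw [q1, q2, q3]
  rw [ei] at t1
  rw [ek] at t2
  have hdiffs : ‖(∫ y in (-Y)..Y, f ((1 / 2 : ℝ) + y * I)) - ∫ y in (-Y)..Y, f ((c : ℝ) + y * I)‖ ≤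
      2 * (B / (1 + Y) ^ n * (c - 1 / 2)) := by
    have e5 : I • ((∫ y in (-Y)..Y, f ((1 / 2 : ℝ) + y * I)) - ∫ y in (-Y)..Y, f ((c : ℝ) + y * I)) =
        (∫ x in (1 / 2 : ℝ)..c, f (x + (-Y : ℝ) * I)) - ∫ x in (1 / 2 : ℝ)..c, f (x + (Y : ℝ) * I) := by
      rw [smul_sub]
      linear_combination (-1 : ℂ) * hrect
    have e6 := congrArg norm e5
    rw [norm_smul, norm_I, one_mul] at e6
    rw [e6]
    refine (norm_sub_le _ _).trans ?_
    linarith
  have hfin : ‖I0 ψ F1 F2 L t - K0 ψ F1 F2 c L t‖ ≤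
      B * J2 / (1 + Y) ^ n + 2 * (B / (1 + Y) ^ n * (c - 1 / 2)) + B * J2 / (1 + Y) ^ n := by
    have e7 : I0 ψ F1 F2 L t - K0 ψ F1 F2 c L t =
        (I0 ψ F1 F2 L t - ∫ y in (-Y)..Y, f ((1 / 2 : ℝ) + y * I)) +
        ((∫ y in (-Y)..Y, f ((1 / 2 : ℝ) + y * I)) - ∫ y in (-Y)..Y, f ((c : ℝ) + y * I)) -
        (K0 ψ F1 F2 c L t - ∫ y in (-Y)..Y, f ((c : ℝ) + y * I)) := by ring
    rw [e7]
    refine (norm_sub_le _ _).trans (add_le_add ((norm_add_le _ _).trans (add_le_add ?_ hdiffs)) ?_)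
    · exact t1
    · exact t2
  refine hfin.trans ?_
  have hYU : U ^ n ≤ 2 ^ n * (1 + Y) ^ n := by
    rw [← mul_pow]
    exact pow_le_pow_left₀ (by linarith) (by rw [hY]; linarith) n
  have hU0 : 0 < U ^ n := by positivity
  have hYp : 0 < (1 + Y) ^ n := by positivity
  calc _ = (B * (2 * J2 + 2 * (c - 1 / 2))) / (1 + Y) ^ n := by ring
    _ ≤ (B * (2 * J2 + 2 * (c - 1 / 2))) * 2 ^ n / U ^ n := by
        rw [div_le_div_iff₀ hYp hU0]
        have : 0 ≤ B * (2 * J2 + 2 * (c - 1 / 2)) := by positivity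
        calc _ ≤ B * (2 * J2 + 2 * (c - 1 / 2)) * (2 ^ n * (1 + Y) ^ n) :=
              mul_le_mul_of_nonneg_left hYU this
          _ = _ := by ring
    _ = _ := by rw [hB]; ring


end

variable {ξ1 : ℝ} {ψ : ℝ → ℂ}

/-- the translated test function -/
def tr (ψ : ℝ → ℂ) (μ : ℝ) : ℝ → ℂ := fun ξ => ψ (ξ - μ)

theorem tr_TF (h : TF ξ1 ψ) {μ : ℝ} (hμ : |μ| ≤ 2) : TF (ξ1 + 2) (tr ψ μ) where
  cd := h.cd.comp (contDiff_id.sub contDiff_const)
  cs := h.cs.comp_homeomorph (Homeomorph.subRight μ)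
  sp ξ hξ := h.sp _ (by
    have := (abs_le.1 hμ).2
    linarith)

theorem P_tr (ψ : ℝ → ℂ) (μ : ℝ) (z : ℂ) : P (tr ψ μ) z = cexp (μ * z) * P ψ z := by
  unfold P tr
  rw [← integral_const_mul]
  have h1 := integral_sub_right_eq_self (μ := (volume : Measure ℝ))
    (fun ξ : ℝ => ψ ξ * cexp (((ξ + μ : ℝ) : ℂ) * z)) μ
  have h2 : ∫ ξ : ℝ, ψ (ξ - μ) * cexp ((ξ : ℂ) * z) =
      ∫ ξ : ℝ, ψ (ξ - μ) * cexp (((ξ - μ + μ : ℝ) : ℂ) * z) := by
    refine integral_congr_ae (Eventually.of_forall fun ξ => ?_)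
    simp only [sub_add_cancel]
  rw [h2, h1]
  refine integral_congr_ae (Eventually.of_forall fun ξ => ?_)
  simp only
  rw [show (((ξ + μ : ℝ) : ℂ) * z) = μ * z + ξ * z by push_cast; ring, Complex.exp_add]
  ring

theorem P_tr_bound {N : ℕ} {C : ℝ} (hC : 0 ≤ C)
    (hb : ∀ z : ℂ, 0 ≤ z.re → ‖P ψ z‖ * (1 + ‖z‖) ^ N ≤ C * Real.exp (ξ1 * z.re)) {μ : ℝ}
    (hμ : |μ| ≤ 2) (z : ℂ) (hz : 0 ≤ z.re) :
    ‖P (tr ψ μ) z‖ * (1 + ‖z‖) ^ N ≤ C * Real.exp ((ξ1 + 2) * z.re) := by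
  rw [P_tr, norm_mul, Complex.norm_exp]
  have e1 : ((μ : ℂ) * z).re = μ * z.re := by simp
  rw [e1]
  calc Real.exp (μ * z.re) * ‖P ψ z‖ * (1 + ‖z‖) ^ N =
        Real.exp (μ * z.re) * (‖P ψ z‖ * (1 + ‖z‖) ^ N) := by ring
    _ ≤ Real.exp (2 * z.re) * (C * Real.exp (ξ1 * z.re)) := by
        have h1 : Real.exp (μ * z.re) ≤ Real.exp (2 * z.re) :=
          Real.exp_le_exp.2 (mul_le_mul_of_nonneg_right (abs_le.1 hμ).2 hz)
        exact mul_le_mul h1 (hb z hz) (by positivity) (by positivity)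
    _ = C * Real.exp ((ξ1 + 2) * z.re) := by
        rw [show (ξ1 + 2) * z.re = 2 * z.re + ξ1 * z.re by ring, Real.exp_add]
        ring

theorem kr_tr (ψ : ℝ → ℂ) (μ L y : ℝ) :
    kr (tr ψ μ) L y = kr ψ L y * cexp (I * (μ * L * y : ℝ)) := by
  unfold kr
  rw [P_tr]
  have e1 : (μ : ℂ) * (L * y * I) = I * ((μ * L * y : ℝ) : ℂ) := by
    push_cast
    ring
  rw [e1]
  ring

theorem dk_one {n : ℕ} (hn : n ≠ 0) : dk 1 n = 1 := by
  unfold dk
  have h1 : Nat.finMulAntidiag 1 n = {fun _ => n} := by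
    ext f
    rw [Nat.mem_finMulAntidiag, Finset.mem_singleton]
    constructor
    · rintro ⟨h, -⟩
      funext i
      rw [Fin.prod_univ_one] at h
      rw [Subsingleton.elim i 0, h]
    · rintro rfl
      exact ⟨by simp, hn⟩
  rw [h1, Finset.card_singleton]

theorem t_FIL : Pool.Agent.Q97.UM.S_FIL := by
  intro ξ1 ψ h hξ
  obtain ⟨C1, hD1⟩ := DF_zeta 1
  obtain ⟨m, hm⟩ := exists_nat_ge ((ξ1 + 2) * (3 / 2))
  obtain ⟨CN, hCN, hP⟩ := P_bound h ((2 + m + 4 + 1) + 2 + 2 * (2 * 1))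
  have hC1 := hD1.hC
  have hJ := J2_nonneg
  set C' : ℝ := CN * (C1 * 1) * (2 * J2 + 2 * (c2 - 1 / 2)) * 2 ^ (2 + m + 4 + 1) with hC'
  have hc2 : (0 : ℝ) ≤ c2 - 1 / 2 := by rw [c2_eq]; norm_num
  have hC'0 : 0 ≤ C' := by positivity
  refine ⟨C' * 4 ^ 4 * 2 ^ (2 + m + 4 + 1), by positivity, fun T hT t ht1 ht2 μ hμ => ?_⟩
  have hT0 : 0 < T := by linarith
  have hL1 : 1 ≤ Real.log T := by
    have h1 : Real.exp 1 ≤ T := by linarith [Real.exp_one_lt_d9]
    have h2 := Real.log_le_log (Real.exp_pos 1) h1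
    rwa [Real.log_exp] at h2
  set L := Real.log T with hL
  have hL0 : 0 < L := by linarith
  have hLT : L ≤ T := (Real.log_le_sub_one_of_pos hT0).trans (by linarith)
  have htr := tr_TF h hμ
  have hs := shiftC htr (by linarith) hD1 (DF_one c2 1 (2 * 1)) (by rw [c2_eq]; norm_num)
    (2 + m + 4 + 1) hCN (fun z hz => P_tr_bound hCN hP hμ z hz)
  have h1 := hs L (T / 2) t hL1 (by linarith) (by linarith) ht1
  rw [← hC'] at h1
  -- the integral
  have hint : (∫ y : ℝ, kr ψ L y * (cexp (I * (μ * L * y : ℝ)) *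
      riemannZeta (1 / 2 + (t + y : ℝ) * I))) = sm (tr ψ μ) L (hz 1) t := by
    unfold sm
    refine integral_congr_ae (Eventually.of_forall fun y => ?_)
    simp only
    rw [kr_tr]
    unfold hz pt
    rw [pow_one]
    push_cast
    ring
  have hdir : (∑' n : ℕ, ψ (Real.log n / L - μ) * (n : ℂ) ^ (-(1 / 2 + t * I))) =
      DP 1 (tr ψ μ) L t := by
    unfold DP tr
    refine tsum_congr fun n => ?_
    rcases Nat.eq_zero_or_pos n with hn | hn
    · subst hn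
      have e1 : (-(1 / 2 + (t : ℂ) * I)) ≠ 0 := by
        intro h0
        have := congrArg Complex.re h0
        simp at this
      rw [show ((0 : ℕ) : ℂ) = 0 from Nat.cast_zero, Complex.zero_cpow e1, mul_zero, mul_zero]
    · rw [dk_one hn.ne', Nat.cast_one, one_mul]
  rw [hint, hdir, sm_I0, ← DP_eq htr 1 hL0 t, ← mul_sub, norm_mul, Complex.norm_real,
    Real.norm_of_nonneg (by positivity)]
  have hE : Real.exp ((ξ1 + 2) * (L * (c2 - 1 / 2))) ≤ T ^ m := by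
    have e1 : T ^ m = Real.exp (m * L) := by
      rw [hL, mul_comm, ← Real.rpow_def_of_pos hT0, Real.rpow_natCast]
    rw [e1, c2_eq]
    apply Real.exp_le_exp.2
    nlinarith
  have hpi : (1 : ℝ) ≤ 2 * Real.pi := by linarith [Real.pi_gt_three]
  have hLp : L / (2 * Real.pi) ≤ T := (div_le_self hL0.le hpi).trans hLT
  have ht3 : 1 + t ≤ 4 * T := by linarith
  calc L / (2 * Real.pi) * ‖I0 (tr ψ μ) (ZP fun _ : Fin 1 => (0:ℝ)) (fun _ => 1) L t -
        K0 (tr ψ μ) (ZP fun _ : Fin 1 => (0:ℝ)) (fun _ => 1) c2 L t‖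
      ≤ T * (C' * (T ^ m * (4 * T) ^ (2 * (2 * 1))) / (T / 2) ^ (2 + m + 4 + 1)) := by
        have ht0 : 0 ≤ t := by linarith
        apply mul_le_mul hLp _ (norm_nonneg _) hT0.le
        refine h1.trans ?_
        gcongr
    _ = C' * 4 ^ 4 * 2 ^ (2 + m + 4 + 1) / T ^ 2 := by
        have e2 : 2 * (2 * 1) = 4 := by norm_num
        rw [e2, div_pow, mul_pow]
        have e3 : T ^ (2 + m + 4 + 1) = T ^ 2 * (T ^ m * T ^ 4 * T) := by
          rw [pow_succ, pow_add, pow_add]; ring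
        rw [e3]
        field_simp

end

end Pool.Agent.Q211.UM
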