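import Pool.Agent.Q62.UM.Stm2

/-! Project UM (helper62): job UM-PS. -/

set_option autoImplicit false

open Real Set MeasureTheory Topology Filter
open scoped ENNReal Polynomial

namespace Pool.Agent.Q211.UM

open Pool.Agent.Q62.UM

theorem min_sum_le {A : Type} (s : Finset A) (f : A → ℝ) (c : ℝ) (hc : 1 ≤ c)
    (hf : ∀ a ∈ s, 0 ≤ f a) : min (c * ∑ a ∈ s, f a) 1 ≤ c * ∑ a ∈ s, min (f a) 1 := by
  have hm : ∀ a ∈ s, 0 ≤ min (f a) 1 := fun a ha => le_min (hf a ha) zero_le_one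
  by_cases h : ∃ a ∈ s, 1 ≤ f a
  · obtain ⟨a, ha, h1⟩ := h
    have h2 : min (f a) 1 ≤ ∑ a ∈ s, min (f a) 1 := Finset.single_le_sum hm ha
    rw [min_eq_right h1] at h2
    refine (min_le_right _ _).trans ?_
    nlinarith
  · push Not at h
    refine (min_le_left _ _).trans (le_of_eq ?_)
    congr 1
    exact Finset.sum_congr rfl fun a ha => (min_eq_left (h a ha).le).symm

theorem int_sum_le {A : Type} [Fintype A] (f : A → ℝ → ℝ) (J : Set ℝ) (hJ : MeasurableSet J) (c : ℝ)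
    (hc : 1 ≤ c) (s : Finset A)
    (h : ∀ a, ContinuousOn (f a) J ∧ (∀ u ∈ J, 0 ≤ f a u) ∧
      ∫⁻ u in J, ENNReal.ofReal (min (f a u) 1) ≤ 10) :
    ∫⁻ u in J, ENNReal.ofReal (min (c * ∑ a ∈ s, f a u) 1) ≤
      ENNReal.ofReal (10 * c * Fintype.card A) := by
  have h1 : ∫⁻ u in J, ENNReal.ofReal (min (c * ∑ a ∈ s, f a u) 1) ≤
      ∫⁻ u in J, ENNReal.ofReal c * ∑ a ∈ s, ENNReal.ofReal (min (f a u) 1) := by
    refine setLIntegral_mono' hJ fun u hu => ?_
    have hm : ∀ a ∈ s, 0 ≤ min (f a u) 1 := fun a _ => le_min ((h a).2.1 u hu) zero_le_one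
    rw [← ENNReal.ofReal_sum_of_nonneg hm, ← ENNReal.ofReal_mul (by linarith)]
    exact ENNReal.ofReal_le_ofReal (min_sum_le s (fun a => f a u) c hc fun a _ => (h a).2.1 u hu)
  refine h1.trans ?_
  have hae : ∀ a, AEMeasurable (fun u => ENNReal.ofReal (min (f a u) 1)) (volume.restrict J) := by
    intro a
    exact ((((h a).1.aemeasurable hJ).min aemeasurable_const).ennreal_ofReal)
  rw [lintegral_const_mul'' _ (Finset.aemeasurable_fun_sum s fun a _ => hae a),
    lintegral_finset_sum' s fun a _ => hae a]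
  calc ENNReal.ofReal c * ∑ a ∈ s, ∫⁻ u in J, ENNReal.ofReal (min (f a u) 1)
      ≤ ENNReal.ofReal c * ∑ a ∈ s, (10 : ℝ≥0∞) := by
        gcongr with a _
        exact (h a).2.2
    _ ≤ ENNReal.ofReal c * ∑ a : A, (10 : ℝ≥0∞) := by
        gcongr
        exact Finset.subset_univ s
    _ = ENNReal.ofReal (10 * c * Fintype.card A) := by
        rw [Finset.sum_const, Finset.card_univ, nsmul_eq_mul]
        have e1 : (10 : ℝ≥0∞) = ENNReal.ofReal 10 := by norm_num
        have e2 : ((Fintype.card A : ℕ) : ℝ≥0∞) = ENNReal.ofReal (Fintype.card A) := by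
          rw [ENNReal.ofReal_natCast]
        rw [e1, e2, ← ENNReal.ofReal_mul (by positivity), ← ENNReal.ofReal_mul (by linarith)]
        congr 1
        ring

theorem t_PS : S_PS := by
  classical
  intro A _ f J c hJ hc h
  have hJm : MeasurableSet J := hJ.1.measurableSet
  have h' : ∀ a, ContinuousOn (f a) J ∧ (∀ u ∈ J, 0 ≤ f a u) ∧
      ∫⁻ u in J, ENNReal.ofReal (min (f a u) 1) ≤ 10 := fun a => ⟨(h a).1, (h a).2.1, (h a).2.2.2⟩
  have hc0 : 0 ≤ c := by linarith
  have hcont : ∀ s : Finset A, ContinuousOn (fun u => c * ∑ a ∈ s, f a u) J := fun s =>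
    continuousOn_const.mul (continuousOn_finsetSum s fun a _ => (h a).1)
  have hnn : ∀ s : Finset A, ∀ u ∈ J, 0 ≤ c * ∑ a ∈ s, f a u := fun s u hu =>
    mul_nonneg hc0 (Finset.sum_nonneg fun a _ => (h a).2.1 u hu)
  refine ⟨fun u => c * ∑ a ∈ Finset.univ.filter (fun a => AntitoneOn (f a) J), f a u,
    fun u => c * ∑ a ∈ Finset.univ.filter (fun a => ¬ AntitoneOn (f a) J), f a u, hcont _, hcont _,
    hnn _, hnn _, ?_, ?_, ?_, ?_, ?_⟩
  · intro x hx y hy hxy
    refine mul_le_mul_of_nonneg_left (Finset.sum_le_sum fun a ha => ?_) hc0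
    exact (Finset.mem_filter.1 ha).2 hx hy hxy
  · intro x hx y hy hxy
    refine mul_le_mul_of_nonneg_left (Finset.sum_le_sum fun a ha => ?_) hc0
    exact ((h a).2.2.1.resolve_right (Finset.mem_filter.1 ha).2) hx hy hxy
  · intro u _
    rw [← mul_add, Finset.sum_filter_add_sum_filter_not]
  · exact int_sum_le f J hJm c hc _ h'
  · exact int_sum_le f J hJm c hc _ h'

end Pool.Agent.Q211.UM
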