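import Pool.Agent.Q62.UM.Stm2

/-! Project UM (helper62): job UM-R3. -/

set_option autoImplicit false

open Real Set MeasureTheory Topology Filter
open scoped ENNReal Polynomial ComplexConjugate

namespace Pool.Agent.Q211.UM

open Pool.Agent.Q62.UM

theorem t_R3 : S_R3 := by
  intro J ε hJ hne hε hn
  obtain ⟨u₀, hu₀⟩ := hne
  have hJo : IsOpen J := hJ.1
  have hJc : IsPreconnected J := hJ.2.isPreconnected
  have hε' : ContDiffOn ℝ 2 (deriv ε) J := by
    have h := (contDiffOn_succ_iff_deriv_of_isOpen (n := 2) hJo).1 (by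
      have : ((2 : WithTop ℕ∞) + 1) = 3 := by norm_num
      rw [this]
      exact hε)
    exact h.2.2
  have hd : DifferentiableOn ℝ ε J := hε.differentiableOn (by norm_num)
  have hda : ∀ u ∈ J, HasDerivAt ε (deriv ε u) u := fun u hu =>
    (hd.differentiableAt (hJo.mem_nhds hu)).hasDerivAt
  set g : ℝ → ℝ := fun u => (deriv ε u * conj (ε u)).im with hg
  have hconj : ContDiffOn ℝ 2 (fun u => conj (ε u)) J := by
    have h1 : ContDiff ℝ 2 (fun z : ℂ => conj z) := Complex.conjCLE.contDiff
    exact h1.comp_contDiffOn (hε.of_le (by norm_num))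
  have hgc : ContDiffOn ℝ 2 g J := by
    have h1 : ContDiff ℝ 2 (fun z : ℂ => z.im) := Complex.imCLM.contDiff
    exact h1.comp_contDiffOn (hε'.mul hconj)
  have hgcont : ContinuousOn g J := hgc.continuousOn
  set y : ℝ → ℝ := fun u => (ε u₀).arg + ∫ t in u₀..u, g t with hy
  have hyd : ∀ u ∈ J, HasDerivAt y (g u) u := by
    intro u hu
    have hsub : uIcc u₀ u ⊆ J := hJ.2.uIcc_subset hu₀ hu
    have h1 : IntervalIntegrable g volume u₀ u := (hgcont.mono hsub).intervalIntegrable
    have h2 : StronglyMeasurableAtFilter g (𝓝 u) :=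
      hgcont.stronglyMeasurableAtFilter hJo u hu
    exact (intervalIntegral.integral_hasDerivAt_right h1 h2
      (hgcont.continuousAt (hJo.mem_nhds hu))).const_add _
  have hyc : ContDiffOn ℝ 3 y J := by
    have : ((2 : WithTop ℕ∞) + 1) = 3 := by norm_num
    rw [← this]
    refine (contDiffOn_succ_iff_deriv_of_isOpen (n := 2) hJo).2 ⟨?_, ?_, ?_⟩
    · exact fun u hu => (hyd u hu).differentiableAt.differentiableWithinAt
    · intro h
      exact absurd h (by decide)
    · exact hgc.congr fun u hu => (hyd u hu).deriv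
  refine ⟨y, hyc, ?_⟩
  -- the derivative of `ε`
  have hre : ∀ u ∈ J, deriv ε u = Complex.I * (g u : ℂ) * ε u := by
    intro u hu
    have h1 : ∀ u ∈ J, ε u * conj (ε u) = 1 := by
      intro u hu
      rw [Complex.mul_conj, Complex.normSq_eq_norm_sq, hn u hu]
      norm_num
    have h2 : HasDerivAt (fun u => ε u * conj (ε u)) (deriv ε u * conj (ε u) + ε u * conj (deriv ε u)) u := by
      have h3 : HasDerivAt (fun u => conj (ε u)) (conj (deriv ε u)) u := by
        have := (Complex.conjCLE.hasFDerivAt (x := ε u)).comp_hasDerivAt u (hda u hu)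
        exact this
      exact (hda u hu).mul h3
    have h4 : HasDerivAt (fun u => ε u * conj (ε u)) 0 u := by
      refine (hasDerivAt_const u (1 : ℂ)).congr_of_eventuallyEq ?_
      filter_upwards [hJo.mem_nhds hu] with x hx
      exact h1 x hx
    have h5 := h2.unique h4
    have h6 : (deriv ε u * conj (ε u)).re = 0 := by
      have h7 : ε u * conj (deriv ε u) = conj (deriv ε u * conj (ε u)) := by
        rw [map_mul, Complex.conj_conj, mul_comm]
      rw [h7] at h5
      have := congrArg Complex.re h5
      simp only [Complex.add_re, Complex.conj_re, Complex.zero_re] at this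
      linarith
    have h8 : deriv ε u * conj (ε u) = Complex.I * (g u : ℂ) := by
      apply Complex.ext
      · rw [h6]
        simp
      · simp [hg]
    calc deriv ε u = deriv ε u * (conj (ε u) * ε u) := by
          rw [mul_comm (conj (ε u)), h1 u hu, mul_one]
      _ = _ := by rw [← mul_assoc, h8]
  have hh : ∀ u ∈ J, HasDerivAt (fun u => ε u * Complex.exp (-(y u * Complex.I))) 0 u := by
    intro u hu
    have h1 : HasDerivAt (fun u => -((y u : ℂ) * Complex.I)) (-((g u : ℂ) * Complex.I)) u := by
      have := (hyd u hu).ofReal_comp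
      exact (this.mul_const Complex.I).neg
    have h2 := (hda u hu).mul h1.cexp
    have h3 : deriv ε u * Complex.exp (-(↑(y u) * Complex.I)) +
        ε u * (Complex.exp (-(↑(y u) * Complex.I)) * -(↑(g u) * Complex.I)) = 0 := by
      rw [hre u hu]
      ring
    rw [h3] at h2
    exact h2
  intro u hu
  have hcon : ε u * Complex.exp (-(y u * Complex.I)) = ε u₀ * Complex.exp (-(y u₀ * Complex.I)) := by
    have k1 : DifferentiableOn ℝ (fun u : ℝ => ε u * Complex.exp (-(y u * Complex.I))) J :=
      fun u hu => (hh u hu).differentiableAt.differentiableWithinAt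
    have k2 : EqOn (deriv (fun u : ℝ => ε u * Complex.exp (-(y u * Complex.I)))) 0 J :=
      fun u hu => (hh u hu).deriv
    exact hJo.is_const_of_deriv_eq_zero hJc k1 k2 hu hu₀
  have h0 : ε u₀ * Complex.exp (-(y u₀ * Complex.I)) = 1 := by
    have h1 : y u₀ = (ε u₀).arg := by simp [hy]
    have h2 := Complex.norm_mul_exp_arg_mul_I (ε u₀)
    rw [hn u₀ hu₀, Complex.ofReal_one, one_mul] at h2
    rw [h1]
    nth_rewrite 1 [← h2]
    rw [← Complex.exp_add]
    simp
  rw [h0] at hcon
  calc ε u = (ε u * Complex.exp (-(y u * Complex.I))) * Complex.exp (y u * Complex.I) := by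
        rw [mul_assoc, ← Complex.exp_add]
        simp
    _ = _ := by rw [hcon, one_mul]

end Pool.Agent.Q211.UM
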